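import Pool.Agent.Y377.IL.StmA
import Pool.Agent.Y377.IL.Asm

/-!
Project IL: algebraic elements satisfy linear differential equations.
-/

set_option autoImplicit false

namespace Pool.Agent.Y454.IL

open Pool.Agent.Y377.EL Pool.Agent.Y377.IL

/-- the adjoined field is stable -/
theorem der_adjoin {K : Type} [Field K] [Algebra ℂ K] (D : Derivation ℂ K K)
    (L : IntermediateField ℂ K) (hL : ∀ y ∈ L, D y ∈ L) (x : K)
    (hx : D x ∈ IntermediateField.adjoin L {x}) :
    ∀ y ∈ IntermediateField.adjoin L {x}, D y ∈ IntermediateField.adjoin L {x} := by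
  have hxm : x ∈ IntermediateField.adjoin L {x} := IntermediateField.mem_adjoin_simple_self L x
  have hLm : ∀ y ∈ L, y ∈ IntermediateField.adjoin L {x} := fun y hy =>
    (IntermediateField.adjoin L {x}).algebraMap_mem ⟨y, hy⟩
  let W : IntermediateField L K :=
    { carrier := {y | y ∈ IntermediateField.adjoin L {x} ∧ D y ∈ IntermediateField.adjoin L {x}}
      mul_mem' := by
        rintro a b ⟨ha, ha'⟩ ⟨hb, hb'⟩
        refine ⟨mul_mem ha hb, ?_⟩
        rw [D.leibniz, smul_eq_mul, smul_eq_mul]
        exact add_mem (mul_mem ha hb') (mul_mem hb ha')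
      add_mem' := by
        rintro a b ⟨ha, ha'⟩ ⟨hb, hb'⟩
        refine ⟨add_mem ha hb, ?_⟩
        rw [map_add]
        exact add_mem ha' hb'
      algebraMap_mem' := fun c => ⟨hLm _ c.2, hLm _ (hL _ c.2)⟩
      inv_mem' := by
        rintro a ⟨ha, ha'⟩
        refine ⟨inv_mem ha, ?_⟩
        rw [D.leibniz_inv, smul_eq_mul]
        exact mul_mem (neg_mem (pow_mem (inv_mem ha) 2)) ha' }
  have h1 : IntermediateField.adjoin L {x} ≤ W := by
    rw [IntermediateField.adjoin_le_iff]
    rintro y hy
    rw [Set.mem_singleton_iff] at hy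
    rw [hy]
    exact ⟨hxm, hx⟩
  exact fun y hy => (h1 hy).2

theorem t_ALD : S_ALD := by
  intro K _ _ D B hB x hx
  classical
  set L := frac B with hLdef
  have hBL : ∀ y ∈ B, y ∈ L := fun y hy => le_frac B hy
  have hL : ∀ y ∈ L, D y ∈ L := fun y hy => stab_frac hB hy
  set V := IntermediateField.adjoin L {x} with hV
  have hLV : ∀ y ∈ L, y ∈ V := fun y hy => V.algebraMap_mem ⟨y, hy⟩
  have hxV : x ∈ V := IntermediateField.mem_adjoin_simple_self L x
  have hpoly : ∀ Q : Polynomial B, Polynomial.aeval x Q ∈ V := by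
    intro Q
    rw [Polynomial.aeval_eq_sum_range]
    refine sum_mem fun i _ => ?_
    rw [Algebra.smul_def]
    exact mul_mem (hLV _ (hBL _ (Q.coeff i).2)) (pow_mem hxV i)
  -- the derivative of `x`
  have hDx : D x ∈ V := by
    obtain ⟨P, hP0, hP, hd, hmin⟩ := exists_min hx
    have h1 := D_aeval D B hB x P
    rw [hP, map_zero] at h1
    have hne : Polynomial.aeval x (Polynomial.derivative P) ≠ 0 := by
      intro h0
      have h2 := hmin _ h0 fun n hn => by
        apply Polynomial.coeff_eq_zero_of_natDegree_lt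
        exact lt_of_lt_of_le (Polynomial.natDegree_derivative_lt (by omega)) hn
      have h3 := congrArg (fun q => ((Polynomial.coeff q (P.natDegree - 1) : B) : K)) h2
      simp only [Polynomial.coeff_derivative, Polynomial.coeff_zero] at h3
      have h4 : P.natDegree - 1 + 1 = P.natDegree := by omega
      have hK : CharZero K := charZero_of_injective_algebraMap (algebraMap ℂ K).injective
      rw [h4] at h3
      push_cast at h3
      rcases mul_eq_zero.1 h3 with h5 | h5
      · have h6 : P.leadingCoeff = 0 := Subtype.ext h5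
        exact hP0 (Polynomial.leadingCoeff_eq_zero.1 h6)
      · have h6 : ((P.natDegree - 1 + 1 : ℕ) : K) = 0 := by
          push_cast
          exact h5
        rw [Nat.cast_eq_zero] at h6
        omega
    have h2 : D x = -(Polynomial.aeval x (dc (dres D B hB) P)) *
        (Polynomial.aeval x (Polynomial.derivative P))⁻¹ := by
      rw [← div_eq_mul_inv, eq_div_iff hne]
      linear_combination -h1
    rw [h2]
    exact mul_mem (neg_mem (hpoly _)) (inv_mem (hpoly _))
  have hDV : ∀ y ∈ V, D y ∈ V := der_adjoin D L hL x hDx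
  have hit : ∀ n : ℕ, (D^[n]) x ∈ V := by
    intro n
    induction n with
    | zero => exact hxV
    | succ n ih =>
      rw [Function.iterate_succ_apply']
      exact hDV _ ih
  -- finite dimension
  have hint : IsIntegral L x := by
    apply IsAlgebraic.isIntegral
    obtain ⟨P, hP0, hP⟩ := hx
    let f : B →+* L :=
      { toFun := fun y => ⟨y, hBL y y.2⟩
        map_one' := rfl
        map_mul' := fun _ _ => rfl
        map_zero' := rfl
        map_add' := fun _ _ => rfl }
    have hf : Function.Injective f := fun y z h => Subtype.ext (congrArg (fun t : L => (t : K)) h)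
    refine ⟨P.map f, (Polynomial.map_ne_zero_iff hf).2 hP0, ?_⟩
    rw [Polynomial.aeval_def, Polynomial.eval₂_map]
    exact hP
  have hfin : FiniteDimensional L V := IntermediateField.adjoin.finiteDimensional hint
  set m := Module.finrank L V with hm
  let v : Fin (m + 1) → V := fun i => ⟨(D^[(i : ℕ)]) x, hit i⟩
  have hnl : ¬ LinearIndependent L v := by
    intro h
    have h1 := h.fintype_card_le_finrank
    rw [Fintype.card_fin] at h1
    omega
  obtain ⟨g, hg, i₀, hi₀⟩ := Fintype.not_linearIndependent_iff.1 hnl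
  have hg' : ∑ i : Fin (m + 1), (g i : K) * (D^[(i : ℕ)]) x = 0 := by
    have h1 := congrArg (fun t : V => (t : K)) hg
    simp only [ZeroMemClass.coe_zero] at h1
    rw [← h1]
    push_cast
    exact Finset.sum_congr rfl fun i _ => rfl
  -- the common denominator
  have hden : ∀ i, ∃ r ∈ B, r ≠ 0 ∧ r * (g i : K) ∈ B := fun i => (g i).2
  choose r hrB hr0 hrg using hden
  set R : K := ∏ i, r i with hR
  have hR0 : R ≠ 0 := Finset.prod_ne_zero_iff.2 fun i _ => hr0 i
  have hRg : ∀ i, R * (g i : K) ∈ B := by
    intro i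
    rw [hR, ← Finset.prod_erase_mul _ _ (Finset.mem_univ i), mul_assoc]
    exact B.mul_mem (B.prod_mem fun j _ => hrB j) (hrg i)
  refine ⟨m, fun k => if h : k < m + 1 then R * (g ⟨k, h⟩ : K) else 0, fun k => ?_, ?_, ?_⟩
  · by_cases h : k < m + 1
    · simp only [h, dif_pos]
      exact hRg _
    · simp only [h, dif_neg, not_false_eq_true]
      exact B.zero_mem
  · refine ⟨i₀, by omega, ?_⟩
    simp only [i₀.2, dif_pos]
    refine mul_ne_zero hR0 ?_
    intro h
    exact hi₀ (Subtype.ext h)
  · rw [Finset.sum_range]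
    have h1 : ∀ i : Fin (m + 1), (if h : (i : ℕ) < m + 1 then R * (g ⟨i, h⟩ : K) else 0) *
        (D^[(i : ℕ)]) x = R * ((g i : K) * (D^[(i : ℕ)]) x) := by
      intro i
      rw [dif_pos i.2, mul_assoc]
    rw [Finset.sum_congr rfl fun i _ => h1 i, ← Finset.mul_sum, hg', mul_zero]

end Pool.Agent.Y454.IL
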